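import Pool.Agent.N126.IS.Stm2

/-!
# IS2/TRL (helper645): equations over a subfield
-/

set_option autoImplicit false

open FF Pool.Agent.W603.LV Pool.Agent.W602.GT LinearAlgebra.Projectivization MvPolynomial
open Pool.Agent.N126.IS

namespace Pool.Agent.N645.IS

variable {n : ℕ} {ι : Type}

theorem coeff_tr {k K : Type} [Field k] [Field K] [Algebra k K] (μ : Fin (n + 1) → K)
    (G : MvPolynomial (Fin (n + 1)) K) (φ : K →ₗ[k] k) (β : Fin (n + 1) →₀ ℕ) :
    coeff β (tr μ G φ) = φ (coeff β G * ∏ i, μ i ^ β i) := by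
  classical
  rw [tr, coeff_sum]
  simp only [coeff_monomial]
  rw [Finset.sum_ite_eq']
  split_ifs with h
  · rfl
  · rw [notMem_support_iff.1 h, zero_mul, map_zero]

theorem coeff_wc {K : Type} [Field K] (b : Fin (n + 1) → ℤ) (v : ℤ)
    (G : MvPolynomial (Fin (n + 1)) K) (β : Fin (n + 1) →₀ ℕ) :
    coeff β (wc b v G) = if ∑ j, (β j : ℤ) * b j = v then coeff β G else 0 := by
  classical
  rw [wc, coeff_sum]
  simp only [coeff_monomial]
  rw [Finset.sum_ite_eq']
  by_cases h : ∑ j, (β j : ℤ) * b j = v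
  · rw [if_pos h]
    by_cases h2 : β ∈ G.support
    · rw [if_pos (Finset.mem_filter.2 ⟨h2, h⟩)]
    · rw [if_neg (fun h3 => h2 (Finset.mem_filter.1 h3).1), notMem_support_iff.1 h2]
  · rw [if_neg h]
    have h3 : β ∉ G.support.filter (fun α => ∑ j, (α j : ℤ) * b j = v) :=
      fun h3 => h (Finset.mem_filter.1 h3).2
    rw [if_neg h3]

theorem wc_tr {k K : Type} [Field k] [Field K] [Algebra k K] (μ : Fin (n + 1) → K)
    (G : MvPolynomial (Fin (n + 1)) K) (φ : K →ₗ[k] k) (b : Fin (n + 1) → ℤ) (v : ℤ) :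
    wc b v (tr μ G φ) = tr μ (wc b v G) φ := by
  ext β
  rw [coeff_wc, coeff_tr, coeff_tr, coeff_wc]
  split_ifs with h
  · rfl
  · rw [zero_mul, map_zero]

theorem val_tr {k K : Type} [Field k] [Field K] [Algebra k K] (μ : Fin (n + 1) → K)
    (G : MvPolynomial (Fin (n + 1)) K) (φ : K →ₗ[k] k) (c : Fin (n + 1) → k) :
    val c (tr μ G φ) = φ (val (fun j => μ j * algebraMap k K (c j)) G) := by
  have h1 : val (fun j => μ j * algebraMap k K (c j)) G =
      ∑ α ∈ G.support, coeff α G * ∏ j, (μ j * algebraMap k K (c j)) ^ α j := by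
    rw [val, aeval_def, eval₂_eq']
    rfl
  rw [h1, map_sum, tr, val, map_sum]
  refine Finset.sum_congr rfl fun α _ => ?_
  rw [aeval_monomial, Finsupp.prod_fintype _ _ (fun i => by rw [pow_zero])]
  have h2 : coeff α G * ∏ j, (μ j * algebraMap k K (c j)) ^ α j =
      (∏ j, c j ^ α j) • (coeff α G * ∏ i, μ i ^ α i) := by
    rw [Algebra.smul_def, map_prod]
    simp only [mul_pow, map_pow]
    rw [Finset.prod_mul_distrib]
    ring
  rw [h2, map_smul, smul_eq_mul, mul_comm]
  rfl

theorem all_zero {k K : Type} [Field k] [Field K] [Algebra k K] (x : K) :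
    (∀ φ : K →ₗ[k] k, φ x = 0) ↔ x = 0 :=
  Module.forall_dual_apply_eq_zero_iff k x

theorem tr_add {k K : Type} [Field k] [Field K] [Algebra k K] (μ : Fin (n + 1) → K)
    (G G' : MvPolynomial (Fin (n + 1)) K) (φ : K →ₗ[k] k) :
    tr μ (G + G') φ = tr μ G φ + tr μ G' φ := by
  ext β
  rw [coeff_add, coeff_tr, coeff_tr, coeff_tr, coeff_add, add_mul, map_add]

theorem tr_monomial {k K : Type} [Field k] [Field K] [Algebra k K] (μ : Fin (n + 1) → K)
    (α : Fin (n + 1) →₀ ℕ) (a : K) (φ : K →ₗ[k] k) :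
    tr μ (monomial α a) φ = monomial α (φ (a * ∏ i, μ i ^ α i)) := by
  classical
  ext β
  rw [coeff_tr, coeff_monomial, coeff_monomial]
  split_ifs with h
  · rw [h]
  · rw [zero_mul, map_zero]

theorem tr_expand {k K : Type} [Field k] [Field K] [Algebra k K] (μ : Fin (n + 1) → K) (m : ℕ)
    (G : MvPolynomial (Fin (n + 1)) K) (φ : K →ₗ[k] k) :
    tr μ (expand m G) φ = expand m (tr (fun j => μ j ^ m) G φ) := by
  induction G using MvPolynomial.induction_on' with
  | monomial α a =>
    rw [expand_monomial, tr_monomial, tr_monomial, expand_monomial]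
    congr 2
    congr 1
    refine Finset.prod_congr rfl fun i _ => ?_
    rw [← pow_mul]
    rfl
  | add p q hp hq => rw [map_add, tr_add, hp, hq, tr_add, map_add]

/-- TRL: the equations of the `c` with `F (μ c) = 0` -/
theorem main_TRL : S_TRL := by
  intro k K _ _ _ n m D ι F μ
  refine ⟨fun c => ?_, fun b v c => ?_, fun hF p => ?_, fun p α hα => ?_, fun _ i φ => ?_⟩
  · constructor
    · intro h i
      rw [← all_zero (k := k)]
      intro φ
      rw [← val_tr]
      exact h (i, φ)
    · rintro h ⟨i, φ⟩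
      change val c (tr μ (F i) φ) = 0
      rw [val_tr, h i, map_zero]
  · constructor
    · intro h i
      rw [← all_zero (k := k)]
      intro φ
      rw [← val_tr, ← wc_tr]
      exact h (i, φ)
    · rintro h ⟨i, φ⟩
      change val c (wc b v (tr μ (F i) φ)) = 0
      rw [wc_tr, val_tr, h i, map_zero]
  · intro d hd
    apply hF p.1
    intro h
    apply hd
    change coeff d (tr μ (F p.1) p.2) = 0
    rw [coeff_tr, h, zero_mul, map_zero]
  · rw [mem_support_iff] at hα ⊢
    intro h
    apply hα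
    change coeff α (tr μ (F p.1) p.2) = 0
    rw [coeff_tr, h, zero_mul, map_zero]
  · exact tr_expand μ m (F i) φ

end Pool.Agent.N645.IS
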